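import Mathlib
import Pool.Agent.ZPL.Split
import Pool.Agent.ZPL.ManyCrit

/-!
The criterion of `ZPL.ManyCrit` and the totally split fibres of `ZPL.Split` with constant coordinates
allowed.
-/

open UpperHalfPlane hiding I

namespace Pool.Agent.ZP58

open Pool.Agent.ZPOrd Pool.Agent.Lib.ModularZP Pool.Agent.ZPL Pool.Agent.ZP46

section many

variable {K : Type*} [Field K] [Algebra ℂ K]

theorem manyCrit0y (htr : Algebra.trdeg ℂ K = 1) {n N : ℕ} (u : Fin n → Fin N → K)
    (l : Fin n → Fin N) (hl : ∀ i, u i (l i) = 1) {y : K} (hy : Transcendental ℂ y)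
    {d : ∀ p : ℕ, ValuationSubring ℂ → ZMod p → ℤ} (hd : DiscFn d) :
    ∃ (S : Finset ℂ) (E : Fin n → Finset (Fin N → ℂ)) (HH : Fin n → Fin n → MvPolynomial (Fin N ⊕ Fin N) ℂ),
      (∀ j, ∀ e ∈ E j, e ≠ 0) ∧ (∀ j k, j ≠ k → HH j k ≠ 0) ∧
      (∀ j, ∀ W : ValuationSubring K, (∀ s ∈ S, algebraMap ℂ K s ∈ W) → AtPole W (u j) →
        ∃ m, u j m ∉ W ∧ ∃ ζ ∈ E j, (∀ a, algebraMap ℂ K (ζ a) ∈ W) ∧
          ∀ a, W.valuation (u j a / u j m - algebraMap ℂ K (ζ a)) < 1) ∧
      ∀ c : Fin n → Fin N → ℂ × ℂ, (∀ i, ∃ (p q : ℕ) (V V' : ValuationSubring ℂ) (ρ ρ' : Fin n → (Fin N → ℂ) → ℤ),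
        p ≠ q ∧ RedT d S E HH c i (l i) p V ρ ∧ RedT d S E HH c i (l i) q V' ρ' ∧
        Four d p V i (placeCurve fun i => ratio (u i) (c i)) ∧
        Four d q V' i (placeCurve fun i => ratio (u i) (c i)) ∧
        ∀ j, j ≠ i → ∀ e ∈ E j, ∀ e' ∈ E j, ¬ IsSquare (d p V (ρ j e : ZMod p) * d q V' (ρ' j e' : ZMod q))) →
        HodgeGeneric (placeCurve fun i => ratio (u i) (c i)) ∧ atyp (placeCurve fun i => ratio (u i) (c i)) = ∅ := by
  classical
  have hl0 : ∀ i, u i (l i) ≠ 0 := fun i => by rw [hl i]; exact one_ne_zero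
  choose SG ZG hG using fun i => exists_generic htr (hl0 i) y
  obtain ⟨v0, hv0⟩ : ∃ v0 : ℂ, v0 ∉ Finset.univ.biUnion ZG := Infinite.exists_notMem_finset _
  obtain ⟨P0, hP0, hP0t, hP0y⟩ := exists_place hy v0
  have hP0' : ∀ i, ¬ AtPole P0 (u i) := by
    intro i
    refine (hG i P0 (fun s _ => hP0 s) (value_mem hP0 hP0y) fun ζ hζ h => ?_).2
    have h1 := value_unique hP0 hP0y h
    exact hv0 (Finset.mem_biUnion.mpr ⟨i, Finset.mem_univ _, by rw [h1]; exact hζ⟩)
  have hval : ∀ i k, ∃ z : ℂ, P0.valuation (u i k - algebraMap ℂ K z) < 1 := by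
    intro i k
    refine exists_value htr hP0 hP0t ?_
    have h1 := hP0' i
    unfold AtPole at h1
    push Not at h1
    exact h1 k
  choose e0 he0 using hval
  have he0l : ∀ i, e0 i (l i) = 1 := by
    intro i
    have h1 := he0 i (l i)
    have h2 : P0.valuation (u i (l i) - algebraMap ℂ K 1) < 1 := by
      rw [hl i, map_one, sub_self, map_zero]; exact zero_lt_one
    exact value_unique hP0 h1 h2
  -- poles and values
  choose ST T hT1 hTW using fun j => exists_poleData htr (u j)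
  choose SE EE hEE1 hEE2 using fun q : Fin n × Fin n => exists_evalData htr (hl0 q.1) (u q.2)
  -- elimination
  have helim : ∀ q : (Fin n × Fin n) × (Fin N × Fin N), ∃ (H : MvPolynomial (Fin N ⊕ Fin N) ℂ) (S : Finset ℂ), H ≠ 0 ∧
      (u q.1.1 q.2.1 ≠ 0 → u q.1.2 q.2.2 ≠ 0 → ∀ W : ValuationSubring K, (∀ s ∈ S, algebraMap ℂ K s ∈ W) →
        (∀ k, u q.1.1 k / u q.1.1 q.2.1 ∈ W) → (∀ k, u q.1.2 k / u q.1.2 q.2.2 ∈ W) →
        ∀ (β β' : Fin N → ℂ), (∀ k, algebraMap ℂ K (β k) ∈ W) → (∀ k, algebraMap ℂ K (β' k) ∈ W) →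
        W.valuation (∑ k, algebraMap ℂ K (β k) * (u q.1.1 k / u q.1.1 q.2.1)) < 1 →
        W.valuation (∑ k, algebraMap ℂ K (β' k) * (u q.1.2 k / u q.1.2 q.2.2)) < 1 →
        W.valuation (algebraMap ℂ K (MvPolynomial.eval (Sum.elim β β') H)) < 1) := by
    intro q
    by_cases h1 : u q.1.1 q.2.1 ≠ 0
    · by_cases h2 : u q.1.2 q.2.2 ≠ 0
      · obtain ⟨H, S, hH, hS⟩ := elim htr (fun k => u q.1.1 k / u q.1.1 q.2.1) q.2.1 (div_self h1)
          (fun k => u q.1.2 k / u q.1.2 q.2.2) q.2.2 (div_self h2)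
        exact ⟨H, S, hH, fun _ _ => hS⟩
      · exact ⟨1, ∅, one_ne_zero, fun _ h => absurd h h2⟩
    · exact ⟨1, ∅, one_ne_zero, fun h => absurd h h1⟩
  choose HQ SQ hHQ0 hHQ using helim
  set HH : Fin n → Fin n → MvPolynomial (Fin N ⊕ Fin N) ℂ := fun j k => ∏ q : Fin N × Fin N, HQ ((j, k), q) with hHH
  set E : Fin n → Finset (Fin N → ℂ) := fun j =>
    insert (e0 j) (T j ∪ (Finset.univ.erase j).biUnion fun i => EE (i, j)) with hE
  set S : Finset ℂ := (Finset.univ.biUnion ST) ∪ ((Finset.univ.biUnion SE) ∪ ((Finset.univ.biUnion SQ) ∪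
    ((Finset.univ.biUnion fun q => (HQ q).support.image (HQ q).coeff) ∪
      Finset.univ.biUnion fun j => (E j).biUnion fun e => Finset.univ.image e))) with hS
  have hsub : ∀ W : ValuationSubring K, (∀ s ∈ S, algebraMap ℂ K s ∈ W) →
      (∀ j, ∀ s ∈ ST j, algebraMap ℂ K s ∈ W) ∧ (∀ q, ∀ s ∈ SE q, algebraMap ℂ K s ∈ W) ∧
      (∀ q, ∀ s ∈ SQ q, algebraMap ℂ K s ∈ W) ∧ ∀ j, ∀ e ∈ E j, ∀ k, algebraMap ℂ K (e k) ∈ W := by
    intro W hW
    refine ⟨fun j s hs => hW s ?_, fun j s hs => hW s ?_, fun j s hs => hW s ?_, fun j e he k => hW _ ?_⟩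
    · exact Finset.mem_union_left _ (Finset.mem_biUnion.mpr ⟨j, Finset.mem_univ _, hs⟩)
    · exact Finset.mem_union_right _ (Finset.mem_union_left _ (Finset.mem_biUnion.mpr ⟨j, Finset.mem_univ _, hs⟩))
    · exact Finset.mem_union_right _ (Finset.mem_union_right _ (Finset.mem_union_left _
        (Finset.mem_biUnion.mpr ⟨j, Finset.mem_univ _, hs⟩)))
    · refine Finset.mem_union_right _ (Finset.mem_union_right _ (Finset.mem_union_right _ (Finset.mem_union_right _
        (Finset.mem_biUnion.mpr ⟨j, Finset.mem_univ _, ?_⟩))))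
      exact Finset.mem_biUnion.mpr ⟨e, he, Finset.mem_image_of_mem _ (Finset.mem_univ k)⟩
  have hSe : ∀ V : ValuationSubring ℂ, (∀ s ∈ S, s ∈ V) → ∀ j, ∀ e ∈ E j, ∀ k, e k ∈ V := by
    intro V hV j e he k
    refine hV _ (Finset.mem_union_right _ (Finset.mem_union_right _ (Finset.mem_union_right _ (Finset.mem_union_right _
      (Finset.mem_biUnion.mpr ⟨j, Finset.mem_univ _, ?_⟩)))))
    exact Finset.mem_biUnion.mpr ⟨e, he, Finset.mem_image_of_mem _ (Finset.mem_univ k)⟩
  have hSq : ∀ V : ValuationSubring ℂ, (∀ s ∈ S, s ∈ V) → ∀ q m, (HQ q).coeff m ∈ V := by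
    intro V hV q m
    by_cases hm : m ∈ (HQ q).support
    · refine hV _ (Finset.mem_union_right _ (Finset.mem_union_right _ (Finset.mem_union_right _ (Finset.mem_union_left _
        (Finset.mem_biUnion.mpr ⟨q, Finset.mem_univ _, Finset.mem_image_of_mem _ hm⟩)))))
    · rw [MvPolynomial.notMem_support_iff.mp hm]
      exact V.zero_mem
  have hEne : ∀ j, ∀ e ∈ E j, e ≠ 0 := by
    intro j e he h0
    rw [hE, Finset.mem_insert, Finset.mem_union, Finset.mem_biUnion] at he
    rcases he with rfl | he | ⟨i, _, he⟩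
    · have := he0l j
      rw [h0] at this
      exact zero_ne_one this
    · obtain ⟨m, hm⟩ := hT1 j e he
      rw [h0] at hm
      exact zero_ne_one hm
    · obtain ⟨P, hP, _, hv⟩ := hEE1 (i, j) e he
      have h1 := hv (l j)
      rw [h0] at h1
      simp only [hl j, Pi.zero_apply, map_zero, sub_zero, map_one] at h1
      exact lt_irrefl _ h1
  refine ⟨S, E, HH, hEne, fun j k _ => Finset.prod_ne_zero_iff.mpr fun q _ => hHQ0 _, ?_, fun c hc => ?_⟩
  · intro j W hW hp
    obtain ⟨s1, s2, s3, s4⟩ := hsub W hW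
    obtain ⟨m, hm, ζ, hζT, hζ⟩ := hTW j W (s1 j) hp
    have h1 : ζ ∈ E j := Finset.mem_insert_of_mem (Finset.mem_union_left _ hζT)
    exact ⟨m, hm, ζ, h1, s4 j ζ h1, hζ⟩
  set g : Fin n → K := fun i => ratio (u i) (c i) with hg
  have he0E : ∀ j, e0 j ∈ E j := fun j => Finset.mem_insert_self _ _
  -- values at the generic place
  have hbase : ∀ i (V : ValuationSubring ℂ) p ρ, RedT d S E HH c i (l i) p V ρ → ∀ j,
      P0.valuation (g j - algebraMap ℂ K ((∑ k, (c j k).1 * e0 j k) / (∑ k, (c j k).2 * e0 j k))) < 1 := by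
    intro i V p ρ hR j
    have h1 : (∑ k, (c j k).2 * e0 j k) ≠ 0 := by
      intro h0
      have h2 := hR.unit j (e0 j) (he0E j)
      rw [h0, map_zero] at h2
      exact zero_ne_one h2
    refine ratio_close (m := l j) (hl0 j) (fun a => ?_) (fun k => hP0 _) (fun k => hP0 _) (fun k => hP0 _)
      (const_val hP0 h1)
    rw [hl j, div_one]
    exact he0 j a
  have hBne : ∀ i (V : ValuationSubring ℂ) p ρ, RedT d S E HH c i (l i) p V ρ → ∀ j, lin (u j) (fun k => (c j k).2) ≠ 0 := by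
    intro i V p ρ hR j h0
    have h1 : (∑ k, (c j k).2 * e0 j k) ≠ 0 := by
      intro h0
      have h2 := hR.unit j (e0 j) (he0E j)
      rw [h0, map_zero] at h2
      exact zero_ne_one h2
    have h2 := lin_close (W := P0) (u := u j) (m := l j) (e := e0 j) (fun a => by
      rw [hl j, div_one]; exact he0 j a) (c := fun k => (c j k).2) fun k => hP0 _
    rw [h0, zero_div, zero_sub, Valuation.map_neg, const_val hP0 h1] at h2
    exact lt_irrefl _ h2
  refine ⟨hodge_of_points fun i => ?_, atyp_empty hd fun i => ?_⟩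
  · obtain ⟨p, q, V, V', ρ, ρ', _, hR, _, _, _, _⟩ := hc i
    refine ⟨V, fun j => (∑ k, (c j k).1 * e0 j k) / (∑ k, (c j k).2 * e0 j k), ⟨P0, hP0, hP0t, hbase i V p ρ hR⟩, ?_, ?_⟩
    · intro hcon
      have h1 := hR.unit i (e0 i) (he0E i)
      have h2 : (∑ k, (c i k).2 * e0 i k) ≠ 0 := by
        intro h0
        rw [h0, map_zero] at h1
        exact zero_ne_one h1
      have h3 : ∑ k, (c i k).1 * e0 i k ∈ V := by
        have h4 := V.mul_mem _ _ hcon ((V.valuation_le_one_iff _).mp h1.le)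
        rwa [div_mul_cancel₀ _ h2] at h4
      rw [← Finset.add_sum_erase _ _ (Finset.mem_univ (l i)), he0l i, mul_one] at h3
      apply hR.large
      have h4 : ∑ k ∈ Finset.univ.erase (l i), (c i k).1 * e0 i k ∈ V := by
        refine sum_mem fun k hk => V.mul_mem _ _ (hR.memA i k fun h => ?_) (hSe V hR.memS i _ (he0E i) k)
        exact Finset.ne_of_mem_erase hk (Prod.ext_iff.mp h).2
      have h5 := sub_mem h3 h4
      rwa [add_sub_cancel_right] at h5
    · intro j hj
      have h1 := hR.unit j (e0 j) (he0E j)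
      rw [← V.valuation_le_one_iff, map_div₀, h1, div_one]
      refine (V.valuation_le_one_iff _).mpr (sum_mem fun k _ => V.mul_mem _ _ (hR.memA j k fun h => ?_)
        (hSe V hR.memS j _ (he0E j) k))
      exact hj (Prod.ext_iff.mp h).1
  · -- local conditions
    have hloc : ∀ (p : ℕ) (V : ValuationSubring ℂ) (ρ : Fin n → (Fin N → ℂ) → ℤ), RedT d S E HH c i (l i) p V ρ →
        Four d p V i (placeCurve g) → LocC d (placeCurve g) i p V (Fintype.piFinset fun j => (E j).image (ρ j)) := by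
      intro p V ρ hR hF
      have hmemR : ∀ r ∈ Fintype.piFinset (fun j => (E j).image (ρ j)), ∀ j, ∃ e ∈ E j, ρ j e = r j := by
        intro r hr j
        rw [Fintype.mem_piFinset] at hr
        exact Finset.mem_image.mp (hr j)
      -- the composite valuation at a point
      have hcomp : ∀ P : ValuationSubring K, (∀ c : ℂ, algebraMap ℂ K c ∈ P) → P ≠ ⊤ → ∃ W : ValuationSubring K,
          (∀ c : ℂ, algebraMap ℂ K c ∈ W ↔ c ∈ V) ∧
          (∀ (f : K) (c : ℂ), P.valuation (f - algebraMap ℂ K c) < 1 → (f ∈ W ↔ c ∈ V)) ∧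
          (∀ (f : K) (c : ℂ), P.valuation (f - algebraMap ℂ K c) < 1 → (W.valuation f < 1 ↔ V.valuation c < 1)) ∧
          (∀ s ∈ S, algebraMap ℂ K s ∈ W) ∧ (∀ z : ℂ, W.valuation (algebraMap ℂ K z) < 1 ↔ V.valuation z < 1) ∧
          ∀ z : ℂ, V.valuation z = 1 → W.valuation (algebraMap ℂ K z) = 1 := by
        intro P hP hPt
        obtain ⟨W, _, hWc, hWm, hWlt⟩ := exists_comp htr hP hPt V
        have hc0 : ∀ z : ℂ, P.valuation (algebraMap ℂ K z - algebraMap ℂ K z) < 1 := fun z => by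
          rw [sub_self, map_zero]; exact zero_lt_one
        have hlt : ∀ z : ℂ, W.valuation (algebraMap ℂ K z) < 1 ↔ V.valuation z < 1 := fun z => hWlt _ z (hc0 z)
        refine ⟨W, hWc, hWm, hWlt, fun s hs => (hWc s).mpr (hR.memS s hs), hlt, fun z hz => ?_⟩
        refine le_antisymm ((W.valuation_le_one_iff _).mpr ((hWc z).mpr ((V.valuation_le_one_iff _).mp hz.le))) ?_
        by_contra hcon
        push Not at hcon
        have := (hlt z).mp hcon
        rw [hz] at this
        exact lt_irrefl _ this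
      have hB : ∀ j, ∀ W : ValuationSubring K, (∀ c : ℂ, algebraMap ℂ K c ∈ W ↔ c ∈ V) →
          ∀ k, algebraMap ℂ K (c j k).2 ∈ W := fun j W hW k => (hW _).mpr (hR.memB j k)
      have hA : ∀ j, j ≠ i → ∀ W : ValuationSubring K, (∀ c : ℂ, algebraMap ℂ K c ∈ W ↔ c ∈ V) →
          ∀ k, algebraMap ℂ K (c j k).1 ∈ W := fun j hj W hW k =>
        (hW _).mpr (hR.memA j k fun h => hj (Prod.ext_iff.mp h).1)
      refine ⟨hR.prime, hR.two, hR.val, ?_, ?_, ?_, ?_, ?_⟩
      · rintro x ⟨P, hP, hPt, hPx⟩ hxi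
        obtain ⟨W, hWc, hWm, hWlt, hWS, hWlt', hW1⟩ := hcomp P hP hPt
        obtain ⟨s1, s2, s3, s4⟩ := hsub W hWS
        -- the private coordinate
        have hpole : AtPole W (u i) := by
          by_contra hp
          have hp' := hp
          unfold AtPole at hp'
          push Not at hp'
          have h1 : lin (u i) (fun k => (c i k).1) ∉ W := by
            refine lin_notMem (l := l i) (fun h => hR.large ((hWc _).mp h)) (fun k hk => (hWc _).mpr (hR.memA i k fun h => hk (Prod.ext_iff.mp h).2)) ?_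
            unfold AtZero
            push Not
            rw [hl i, map_one]
            exact ⟨le_refl _, fun k => (W.valuation_le_one_iff _).mpr (hp' k)⟩
          apply h1
          have h2 : lin (u i) (fun k => (c i k).2) ∈ W := lin_mem (hB i W hWc) hp
          have h3 : g i ∈ W := (hWm _ _ (hPx i)).mpr hxi
          have h4 : lin (u i) (fun k => (c i k).1) = g i * lin (u i) (fun k => (c i k).2) := by
            rw [hg]
            simp only [ratio]
            rw [div_mul_cancel₀ _ (hBne i V p ρ hR i)]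
          rw [h4]
          exact W.mul_mem _ _ h3 h2
        have hkey : ∀ j, j ≠ i → ∃ e ∈ E j, V.valuation (x j - (ρ j e : ℂ)) < 1 := by
          intro j hj
          obtain ⟨m, hm0, e, heE, hv⟩ : ∃ m, u j m ≠ 0 ∧ ∃ e ∈ E j, ∀ a, W.valuation (u j a / u j m - algebraMap ℂ K (e a)) < 1 := by
            by_cases hp : AtPole W (u j)
            · obtain ⟨m, hm, ζ, hζT, hζ⟩ := hTW j W (s1 j) hp
              refine ⟨m, fun h => hm (by rw [h]; exact W.zero_mem), ζ, ?_, hζ⟩
              exact Finset.mem_insert_of_mem (Finset.mem_union_left _ hζT)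
            · obtain ⟨e, he, hv⟩ := hEE2 (i, j) W (s2 (i, j)) (Or.inr hpole) hp
              refine ⟨l j, hl0 j, e, ?_, fun a => by rw [hl j, div_one]; exact hv a⟩
              refine Finset.mem_insert_of_mem (Finset.mem_union_right _ (Finset.mem_biUnion.mpr ⟨i, ?_, he⟩))
              exact Finset.mem_erase.mpr ⟨Ne.symm hj, Finset.mem_univ _⟩
          refine ⟨e, heE, ?_⟩
          have h1 := ratio_close hm0 hv (hA j hj W hWc) (hB j W hWc) (s4 j e heE)
            (hW1 _ (hR.unit j e heE))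
          have h2 : P.valuation (g j - algebraMap ℂ K ((∑ k, (c j k).1 * e k) / (∑ k, (c j k).2 * e k)) -
              algebraMap ℂ K (x j - (∑ k, (c j k).1 * e k) / (∑ k, (c j k).2 * e k))) < 1 := by
            have h3 : g j - algebraMap ℂ K ((∑ k, (c j k).1 * e k) / (∑ k, (c j k).2 * e k)) -
                algebraMap ℂ K (x j - (∑ k, (c j k).1 * e k) / (∑ k, (c j k).2 * e k)) =
                g j - algebraMap ℂ K (x j) := by
              rw [map_sub]; ring
            rw [h3]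
            exact hPx j
          have h3 := (hWlt _ _ h2).mp h1
          have h4 : x j - (ρ j e : ℂ) = (x j - (∑ k, (c j k).1 * e k) / (∑ k, (c j k).2 * e k)) +
              ((∑ k, (c j k).1 * e k) / (∑ k, (c j k).2 * e k) - (ρ j e : ℂ)) := by ring
          rw [h4]
          exact V.valuation.map_add_lt h3 (hR.res j hj e heE)
        choose! e he hev using hkey
        refine ⟨fun j => if j = i then ρ i (e0 i) else ρ j (e j), ?_, fun j hj => ?_⟩
        · rw [Fintype.mem_piFinset]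
          intro j
          by_cases hj : j = i
          · subst hj
            simp only [if_true]
            exact Finset.mem_image_of_mem _ (he0E j)
          · simp only [hj, if_false]
            exact Finset.mem_image_of_mem _ (he j hj)
        · simp only [hj, if_false]
          exact hev j hj
      · intro r hr j hj
        obtain ⟨e, he, h1⟩ := hmemR r hr j
        rw [← h1]
        exact hR.ord j hj e he
      · intro r hr j k hj hk hjk
        obtain ⟨e, he, h1⟩ := hmemR r hr j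
        obtain ⟨e', he', h2⟩ := hmemR r hr k
        rw [← h1, ← h2]
        exact hR.cross j k hj hk hjk e he e' he'
      · rintro x ⟨P, hP, hPt, hPx⟩ j k hj hk hjk
        by_contra hcon
        push Not at hcon
        obtain ⟨W, hWc, hWm, hWlt, hWS, hWlt', hW1⟩ := hcomp P hP hPt
        obtain ⟨s1, s2, s3, s4⟩ := hsub W hWS
        have hvan : ∀ j, j ≠ i → x j ∉ V → ∃ m, u j m ≠ 0 ∧ (∀ a, u j a / u j m ∈ W) ∧
            W.valuation (∑ a, algebraMap ℂ K (c j a).2 * (u j a / u j m)) < 1 := by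
          intro j hj hxj
          obtain ⟨m, -, hm⟩ := Finset.exists_max_image (Finset.univ : Finset (Fin N)) (fun a => W.valuation (u j a))
            ⟨l j, Finset.mem_univ _⟩
          have hm0 : u j m ≠ 0 := by
            intro h0
            have h1 := hm (l j) (Finset.mem_univ _)
            simp only [hl j, h0, map_one, map_zero] at h1
            exact absurd h1 (not_le.mpr zero_lt_one)
          have hmW : ∀ a, u j a / u j m ∈ W := by
            intro a
            rw [← W.valuation_le_one_iff, map_div₀]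
            exact div_le_one_of_le₀ (hm a (Finset.mem_univ _)) zero_le
          refine ⟨m, hm0, hmW, ?_⟩
          have hlin : ∀ a : Fin N → ℂ, lin (u j) a / u j m = ∑ k, algebraMap ℂ K (a k) * (u j k / u j m) := by
            intro a
            rw [lin, Finset.sum_div]
            refine Finset.sum_congr rfl fun k _ => ?_
            rw [mul_div_assoc]
          have h1 : ∑ a, algebraMap ℂ K (c j a).2 * (u j a / u j m) ∈ W :=
            sum_mem fun k _ => W.mul_mem _ _ (hB j W hWc k) (hmW k)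
          have h2 : ∑ a, algebraMap ℂ K (c j a).1 * (u j a / u j m) ∈ W :=
            sum_mem fun k _ => W.mul_mem _ _ (hA j hj W hWc k) (hmW k)
          by_contra hlt
          have h3 : W.valuation (∑ a, algebraMap ℂ K (c j a).2 * (u j a / u j m)) = 1 :=
            le_antisymm ((W.valuation_le_one_iff _).mpr h1) (not_lt.mp hlt)
          apply hxj
          refine (hWm _ _ (hPx j)).mp ?_
          have h4 : g j = (∑ a, algebraMap ℂ K (c j a).1 * (u j a / u j m)) /
              (∑ a, algebraMap ℂ K (c j a).2 * (u j a / u j m)) := by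
            rw [← hlin fun a => (c j a).1, ← hlin fun a => (c j a).2, div_div_div_cancel_right₀ hm0]
            rfl
          rw [h4, ← W.valuation_le_one_iff, map_div₀, h3, div_one]
          exact (W.valuation_le_one_iff _).mpr h2
        obtain ⟨m, hm0, hmW, hm1⟩ := hvan j hj hcon.1
        obtain ⟨m', hm0', hmW', hm1'⟩ := hvan k hk hcon.2
        have h1 := hHQ ((j, k), (m, m')) hm0 hm0' W (s3 _) hmW hmW' (fun a => (c j a).2) (fun a => (c k a).2)
          (hB j W hWc) (hB k W hWc) hm1 hm1'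
        rw [hWlt'] at h1
        have h2 := hR.rel j k hj hk hjk
        rw [hHH] at h2
        simp only [map_prod] at h2
        rw [← Finset.mul_prod_erase _ _ (Finset.mem_univ (m, m'))] at h2
        have h3 : ∏ q ∈ Finset.univ.erase (m, m'), V.valuation (MvPolynomial.eval
            (Sum.elim (fun m => (c j m).2) fun m => (c k m).2) (HQ ((j, k), q))) ≤ 1 := by
          refine Finset.prod_le_one' fun q _ => ?_
          rw [V.valuation_le_one_iff, MvPolynomial.eval_eq']
          refine sum_mem fun a _ => V.mul_mem _ _ (hSq V hR.memS _ a) (prod_mem fun b _ => pow_mem ?_ _)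
          rcases b with b | b
          · exact hR.memB j b
          · exact hR.memB k b
        have h4 := mul_lt_one_of_lt_of_le h1 h3
        rw [h2] at h4
        exact lt_irrefl _ h4
      · exact hF
    obtain ⟨p, q, V, V', ρ, ρ', _, hR, hR', hF, hF', hcr⟩ := hc i
    refine ⟨p, q, V, V', _, _, hloc p V ρ hR hF, hloc q V' ρ' hR' hF', fun r hr r' hr' j hj => ?_⟩
    rw [Fintype.mem_piFinset] at hr hr'
    obtain ⟨e, he, h1⟩ := Finset.mem_image.mp (hr j)
    obtain ⟨e', he', h2⟩ := Finset.mem_image.mp (hr' j)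
    rw [← h1, ← h2]
    exact hcr j hj e he e' he'




end many

theorem manyCrity {K : Type*} [Field K] [Algebra ℂ K] (htr : Algebra.trdeg ℂ K = 1) {n N : ℕ} (u : Fin n → Fin N → K)
    (l : Fin n → Fin N) (hl : ∀ i, u i (l i) = 1) {y : K} (hy : Transcendental ℂ y)
    {d : ∀ p : ℕ, ValuationSubring ℂ → ZMod p → ℤ} (hd : DiscFn d) :
    ∃ (S : Finset ℂ) (E : Fin n → Finset (Fin N → ℂ)) (HH : Fin n → Fin n → MvPolynomial (Fin N ⊕ Fin N) ℂ),
      (∀ j, ∀ e ∈ E j, e ≠ 0) ∧ (∀ j k, j ≠ k → HH j k ≠ 0) ∧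
      ∀ c : Fin n → Fin N → ℚ × ℚ, (∀ i, ∃ (p q : ℕ) (_ : Fact p.Prime) (_ : Fact q.Prime) (V V' : ValuationSubring ℂ)
          (ρ ρ' : Fin n → (Fin N → ℂ) → ℤ) (T : Fin n → Finset (Fin N → ZMod p))
          (E4 : Fin n → (Fin N → ZMod p) → Finset (Fin n → Fin N → ZMod p)) (T' : Fin n → Finset (Fin N → ZMod q))
          (E4' : Fin n → (Fin N → ZMod q) → Finset (Fin n → Fin N → ZMod q)), p ≠ q ∧
        RedT d S E HH (fun i k => (((c i k).1 : ℂ), ((c i k).2 : ℂ))) i (l i) p V ρ ∧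
        RedT d S E HH (fun i k => (((c i k).1 : ℂ), ((c i k).2 : ℂ))) i (l i) q V' ρ' ∧
        SplitQ u p V T E4 ∧ SplitQ u q V' T' E4' ∧
        (∀ j s, j ≠ i → ((c j s).1.den : ZMod p) ≠ 0) ∧ (∀ j s, ((c j s).2.den : ZMod p) ≠ 0) ∧
        (∀ j s, j ≠ i → ((c j s).1.den : ZMod q) ≠ 0) ∧ (∀ j s, ((c j s).2.den : ZMod q) ≠ 0) ∧
        Loc4 (d p V) T E4 (fun j s => redQ p (c j s).1) (fun j s => redQ p (c j s).2) i ∧
        Loc4 (d q V') T' E4' (fun j s => redQ q (c j s).1) (fun j s => redQ q (c j s).2) i ∧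
        ∀ j, j ≠ i → ∀ e ∈ E j, ∀ e' ∈ E j, ¬ IsSquare (d p V (ρ j e : ZMod p) * d q V' (ρ' j e' : ZMod q))) →
        HodgeGeneric (placeCurve fun i => ratio (u i) (fun k => (((c i k).1 : ℂ), ((c i k).2 : ℂ)))) ∧
          atyp (placeCurve fun i => ratio (u i) (fun k => (((c i k).1 : ℂ), ((c i k).2 : ℂ)))) = ∅ := by
  obtain ⟨S, E, HH, h1, h2, h3, h4⟩ := manyCrit0y htr u l hl hy hd
  refine ⟨S, E, HH, h1, h2, fun c hc => h4 _ fun i => ?_⟩
  obtain ⟨p, q, hp, hq, V, V', ρ, ρ', T, E4, T', E4', hpq, hR, hR', hQ, hQ', a1, a2, a3, a4, b1, b2, hcr⟩ := hc i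
  exact ⟨p, q, V, V', ρ, ρ', hpq, hR, hR', four_of_split htr u l hl h3 hR hQ a1 a2 b1,
    four_of_split htr u l hl h3 hR' hQ' a3 a4 b2, hcr⟩



/-- `split_one` for a system of constants: the denominator has no zero -/
theorem split_const {K : Type*} [Field K] [Algebra ℂ K] {n N : ℕ}
    (u : Fin n → Fin N → K) (l : Fin n → Fin N) (hl : ∀ i, u i (l i) = 1) (j : Fin n)
    (w : Fin N → ℂ) (hw : ∀ a, algebraMap ℂ K (w a) = u j a) : ∃ (S : Finset ℂ) (C₀ D₀ P₀ : ℕ), ∀ (p : ℕ) [Fact p.Prime],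
    P₀ ≤ p → ∀ (V : ValuationSubring ℂ) (ψ : ZMod p →+* IsLocalRing.ResidueField V) (r : ℂ → ZMod p),
    V.valuation (p : ℂ) < 1 → (∀ s ∈ S, Rs ψ s (r s)) →
    ∃ (T : Finset (Fin N → ZMod p)) (E : (Fin N → ZMod p) → Finset (Fin n → Fin N → ZMod p)),
      p ^ N ≤ C₀ * T.card ∧ (∀ b, (E b).card ≤ D₀) ∧ (∀ b, ∀ ρ ∈ E b, ∀ k, ρ k (l k) = 1) ∧
      ∀ β : Fin N → ℚ, (∀ a, ((β a).den : ZMod p) ≠ 0) → (fun a => redQ p (β a)) ∈ T →
        ∀ W : ValuationSubring K, (∀ c : ℂ, algebraMap ℂ K c ∈ W ↔ c ∈ V) → (∀ a, u j a ∈ W) →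
        W.valuation (∑ a, algebraMap ℂ K (β a : ℂ) * u j a) < 1 →
        ∃ ρ ∈ E (fun a => redQ p (β a)), ∀ k a, ∀ m : ℤ, (m : ZMod p) = ρ k a →
          W.valuation (u k a - algebraMap ℂ K (m : ℂ)) < 1 := by
  classical
  have hwl : w (l j) = 1 := by
    have h1 := hw (l j)
    rw [hl j, ← map_one (algebraMap ℂ K)] at h1
    exact (algebraMap ℂ K).injective h1
  refine ⟨Finset.univ.image w, 2, 0, 0, fun p hpf _ V ψ r hV hr => ?_⟩
  have hrw : ∀ a, Rs ψ (w a) (r (w a)) := fun a => hr _ (Finset.mem_image_of_mem _ (Finset.mem_univ a))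
  have hr1 : r (w (l j)) ≠ 0 := by
    intro h0
    have h1 := hrw (l j)
    rw [h0, hwl] at h1
    have h2 := h1.val_lt
    rw [map_one] at h2
    exact lt_irrefl _ h2
  set f : (Fin N → ZMod p) → ZMod p := fun b => ∑ a, b a * r (w a) with hf
  refine ⟨Finset.univ.filter fun b => f b ≠ 0, fun _ => ∅, ?_, fun b => by simp, fun b ρ hρ => by simp at hρ, ?_⟩
  · have h1 : (Finset.univ.filter fun b => f b = 0).card ≤ (Finset.univ.filter fun b => f b ≠ 0).card := by
      refine Finset.card_le_card_of_injOn (fun b => Function.update b (l j) (b (l j) + 1)) ?_ ?_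
      · intro b hb
        rw [Finset.mem_coe, Finset.mem_filter] at hb ⊢
        refine ⟨Finset.mem_univ _, ?_⟩
        have h2 : f (Function.update b (l j) (b (l j) + 1)) = f b + r (w (l j)) := by
          simp only [hf]
          rw [← Finset.add_sum_erase _ _ (Finset.mem_univ (l j)),
            ← Finset.add_sum_erase Finset.univ (fun a => b a * r (w a)) (Finset.mem_univ (l j)), Function.update_self]
          have h3 : ∑ x ∈ Finset.univ.erase (l j), Function.update b (l j) (b (l j) + 1) x * r (w x) =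
              ∑ x ∈ Finset.univ.erase (l j), b x * r (w x) := by
            refine Finset.sum_congr rfl fun x hx => ?_
            rw [Function.update_of_ne (Finset.ne_of_mem_erase hx)]
          rw [h3]
          ring
        rw [h2, hb.2, zero_add]
        exact hr1
      · intro b _ b' _ h
        funext a
        have h2 := congrFun h a
        by_cases ha : a = l j
        · subst ha
          simp only [Function.update_self] at h2
          exact add_right_cancel h2
        · simp only [Function.update_of_ne ha] at h2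
          exact h2
    have h2 := Finset.card_filter_add_card_filter_not (s := (Finset.univ : Finset (Fin N → ZMod p))) (fun b => f b = 0)
    have h3 : (Finset.univ : Finset (Fin N → ZMod p)).card = p ^ N := by
      rw [Finset.card_univ, Fintype.card_fun, ZMod.card, Fintype.card_fin]
    rw [h3] at h2
    have h4 : (Finset.univ.filter fun b : Fin N → ZMod p => ¬ f b = 0).card = (Finset.univ.filter fun b => f b ≠ 0).card := rfl
    omega
  · intro β hβ hT W hW _ hv
    exfalso
    rw [Finset.mem_filter] at hT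
    have hne := hT.2
    have h1 : Rs ψ (∑ a, (β a : ℂ) * w a) (∑ a, redQ p (β a) * r (w a)) :=
      Rs.sum _ _ _ fun a _ => (Rs.rat (hβ a)).mul (hrw a)
    have h2 := h1.val_one hne
    have h3 : ∑ a, algebraMap ℂ K (β a : ℂ) * u j a = algebraMap ℂ K (∑ a, (β a : ℂ) * w a) := by
      rw [map_sum]
      refine Finset.sum_congr rfl fun a _ => ?_
      rw [map_mul, hw]
    rw [h3] at hv
    set z : ℂ := ∑ a, (β a : ℂ) * w a with hz
    have hz0 : z ≠ 0 := fun h => by rw [h, map_zero] at h2; exact zero_ne_one h2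
    have h4 : z⁻¹ ∈ V := by
      rw [← V.valuation_le_one_iff, map_inv₀, h2, inv_one]
    have h5 : algebraMap ℂ K z⁻¹ ∈ W := (hW _).mpr h4
    have h6 : W.valuation (algebraMap ℂ K z⁻¹ * algebraMap ℂ K z) < 1 := val_mul_lt h5 hv
    rw [← map_mul, inv_mul_cancel₀ hz0, map_one, map_one] at h6
    exact lt_irrefl _ h6

theorem exists_splitQ' {K : Type*} [Field K] [Algebra ℂ K] (htr : Algebra.trdeg ℂ K = 1) {n N : ℕ}
    (u : Fin n → Fin N → K) (l : Fin n → Fin N) (hl : ∀ i, u i (l i) = 1) :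
    ∃ (S : Finset ℂ) (C₀ D₀ P₀ : ℕ), ∀ (p : ℕ) [Fact p.Prime],
    P₀ ≤ p → ∀ (V : ValuationSubring ℂ) (ψ : ZMod p →+* IsLocalRing.ResidueField V) (r : ℂ → ZMod p),
    V.valuation (p : ℂ) < 1 → (∀ s ∈ S, Rs ψ s (r s)) →
    ∃ (T : Fin n → Finset (Fin N → ZMod p)) (E4 : Fin n → (Fin N → ZMod p) → Finset (Fin n → Fin N → ZMod p)),
      (∀ j, p ^ N ≤ C₀ * (T j).card) ∧ (∀ j b, (E4 j b).card ≤ D₀) ∧
      (∀ j b, ∀ ρ ∈ E4 j b, ∀ k, ρ k (l k) = 1) ∧ SplitQ u p V T E4 := by
  classical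
  have hone : ∀ j, ∃ (S : Finset ℂ) (C₀ D₀ P₀ : ℕ), ∀ (p : ℕ) [Fact p.Prime],
    P₀ ≤ p → ∀ (V : ValuationSubring ℂ) (ψ : ZMod p →+* IsLocalRing.ResidueField V) (r : ℂ → ZMod p),
    V.valuation (p : ℂ) < 1 → (∀ s ∈ S, Rs ψ s (r s)) →
    ∃ (T : Finset (Fin N → ZMod p)) (E : (Fin N → ZMod p) → Finset (Fin n → Fin N → ZMod p)),
      p ^ N ≤ C₀ * T.card ∧ (∀ b, (E b).card ≤ D₀) ∧ (∀ b, ∀ ρ ∈ E b, ∀ k, ρ k (l k) = 1) ∧
      ∀ β : Fin N → ℚ, (∀ a, ((β a).den : ZMod p) ≠ 0) → (fun a => redQ p (β a)) ∈ T →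
        ∀ W : ValuationSubring K, (∀ c : ℂ, algebraMap ℂ K c ∈ W ↔ c ∈ V) → (∀ a, u j a ∈ W) →
        W.valuation (∑ a, algebraMap ℂ K (β a : ℂ) * u j a) < 1 →
        ∃ ρ ∈ E (fun a => redQ p (β a)), ∀ k a, ∀ m : ℤ, (m : ZMod p) = ρ k a →
          W.valuation (u k a - algebraMap ℂ K (m : ℂ)) < 1 := by
    intro j
    by_cases h : ∃ k, Transcendental ℂ (u j k)
    · exact split_one htr u l hl j h
    · push Not at h
      choose w hw using fun a => exists_const_of_not (h a)
      exact split_const u l hl j w hw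
  choose S C₀ D₀ P₀ h using hone
  have hle : ∀ (f : Fin n → ℕ) j, f j ≤ ∑ j, f j := fun f j =>
    Finset.single_le_sum (f := f) (fun _ _ => Nat.zero_le _) (Finset.mem_univ j)
  refine ⟨Finset.univ.biUnion S, ∑ j, C₀ j, ∑ j, D₀ j, ∑ j, P₀ j, fun p _ hp V ψ r hV hr => ?_⟩
  choose T E h1 h2 h3 h4 using fun j => h j p ((hle P₀ j).trans hp) V ψ r hV fun s hs =>
    hr s (Finset.mem_biUnion.2 ⟨j, Finset.mem_univ j, hs⟩)
  exact ⟨T, E, fun j => (h1 j).trans (Nat.mul_le_mul_right _ (hle C₀ j)), fun j b => (h2 j b).trans (hle D₀ j), h3,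
    fun j β hβ hT W hW huW h0 => h4 j β hβ hT W hW huW h0⟩

end Pool.Agent.ZP58
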